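import Pool.Agent.Lib.HLC.PeelK
import Pool.Agent.Lib.HLB.PosDef

/-!
# Average of the partial singular series over grids, general side lengths

Same as `posdef_grid` in `Pool/Agent/Lib/HLB/PosDef.lean`, with `grid_peelK`
(`X = range W`, `P n = ic z n / DZ z`, `B = 1`).
-/

set_option autoImplicit false

open Finset Filter

namespace Pool.Agent.HLC

open Pool.Agent.HL Pool.Agent.Lib.Sieve4 Pool.Agent.HLB

lemma card_gtupK {d : ℕ} (k : Fin d → ℕ) (T : Fin d → Finset ℕ) :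
    (gtupK k T).card = ∏ j, (T j).card ^ (k j + 1) := by
  unfold gtupK
  rw [Fintype.card_piFinset]
  refine Finset.prod_congr rfl fun j _ => ?_
  rw [Fintype.card_piFinset]
  simp

theorem posdef_gridK {d : ℕ} (k : Fin d → ℕ) (z : ℕ) (T : Fin d → Finset ℕ) :
    (∏ j, ((T j).card : ℝ) ^ (k j + 1)) ≤ ∑ a ∈ gtupK k T, SZ z (gsumK a) := by
  classical
  set W : ℝ := ∏ p ∈ Nat.primesLE z, (p : ℝ) with hW
  have hWpos : 0 < W := primorial_pos' z
  have hcardW : (((range (∏ p ∈ Nat.primesLE z, p)).card : ℕ) : ℝ) = W := by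
    rw [card_range]; push_cast; rfl
  have hcardG : (((gtupK k T).card : ℕ) : ℝ) = ∏ j, ((T j).card : ℝ) ^ (k j + 1) := by
    rw [card_gtupK]
    push_cast
    rfl
  have h := grid_peelK k (range (∏ p ∈ Nat.primesLE z, p)) T (fun n => ic z n / DZ z) (fun _ => 1)
    (fun n => div_nonneg (ic_nonneg _ _) (DZ_pos z).le) (fun _ => zero_le_one)
  simp only [Finset.prod_const_one, mul_one] at h
  have e1 : ∑ n ∈ range (∏ p ∈ Nat.primesLE z, p), ∑ a ∈ gtupK k T,
      ic z (n + gsumK a (fun _ => 0)) / DZ z = W * ((gtupK k T).card : ℝ) := by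
    rw [Finset.sum_comm]
    simp_rw [ic_avg]
    rw [Finset.sum_const, nsmul_eq_mul, mul_comm]
  have e2 : ∑ n ∈ range (∏ p ∈ Nat.primesLE z, p), ∑ a ∈ gtupK k T, (1:ℝ)
      = W * ((gtupK k T).card : ℝ) := by
    rw [Finset.sum_const, nsmul_eq_mul, hcardW, Finset.sum_const, nsmul_eq_mul, mul_one]
  have e3 : ∑ n ∈ range (∏ p ∈ Nat.primesLE z, p), ∑ a ∈ gtupK k T,
      ∏ i : (j : Fin d) → Fin (k j + 1), ic z (n + gsumK a i) / DZ z
      = W * ∑ a ∈ gtupK k T, SZ z (gsumK a) := by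
    rw [Finset.sum_comm, Finset.mul_sum]
    refine Finset.sum_congr rfl fun a _ => ?_
    rw [SZ_avg]
  rw [e1, e2, e3, sub_self, mul_zero, hcardG] at h
  have : W * (∏ j, ((T j).card : ℝ) ^ (k j + 1)) ≤ W * ∑ a ∈ gtupK k T, SZ z (gsumK a) := by
    linarith
  exact le_of_mul_le_mul_left this hWpos

end Pool.Agent.HLC
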