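import Pool.Agent.Lib.HLC.PeelK

/-!
# Separating one coordinate of a grid

`W = ℕ × ((j : {j // j ≠ j0}) → Fin (k j + 1) → ℕ)`, `Ws = X ×ˢ Fintype.piFinset (..)`; for
`w = (n, b)` put `f_w t = ∏_{i'} P (n + (t + ∑_{j ≠ j0} b j (i' j)))` (product over the index
families `i' : (j : {j // j ≠ j0}) → Fin (k j + 1)`), `0 ≤ f_w ≤ 1`, and
`Xf w = ∑_{t ∈ T j0} f_w t`.
-/

set_option autoImplicit false

open Finset

namespace Pool.Agent.HLC

/-- the rest of the family of numbers -/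
abbrev RestA {d : ℕ} (j0 : Fin d) (r : {j : Fin d // j ≠ j0} → ℕ) : Type :=
  (j : {j : Fin d // j ≠ j0}) → Fin (r j + 1) → ℕ

/-- the product over the other indices -/
noncomputable def fW {d : ℕ} (P : ℕ → ℝ) (j0 : Fin d) (r : {j : Fin d // j ≠ j0} → ℕ) (n : ℕ)
    (b : RestA j0 r) (t : ℕ) : ℝ :=
  ∏ i : (j : {j : Fin d // j ≠ j0}) → Fin (r j + 1), P (n + (t + ∑ j, b j (i j)))

/-- the set of all remaining families -/
def restSet {d : ℕ} (T : Fin d → Finset ℕ) (j0 : Fin d) (r : {j : Fin d // j ≠ j0} → ℕ) :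
    Finset (RestA j0 r) :=
  Fintype.piFinset (fun j => Fintype.piFinset (fun _ : Fin (r j + 1) => T j))

lemma gsumK_split {d : ℕ} (k : Fin d → ℕ) (j0 : Fin d) (a : (j : Fin d) → Fin (k j + 1) → ℕ)
    (i : (j : Fin d) → Fin (k j + 1)) :
    gsumK a i = a j0 (i j0) + ∑ j : {j : Fin d // j ≠ j0}, a j (i j) := by
  unfold gsumK
  rw [← Finset.add_sum_erase univ (fun j => a j (i j)) (Finset.mem_univ j0)]
  congr 1
  exact Finset.sum_subtype (univ.erase j0) (fun j => by simp) (fun j => a j (i j))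

lemma sum_gtupK_split {d : ℕ} (k : Fin d → ℕ) (T : Fin d → Finset ℕ) (j0 : Fin d)
    (F : ((j : Fin d) → Fin (k j + 1) → ℕ) → ℝ) :
    ∑ a ∈ gtupK k T, F a = ∑ b ∈ restSet T j0 (fun j => k j),
      ∑ a0 ∈ Fintype.piFinset (fun _ : Fin (k j0 + 1) => T j0),
        F ((Equiv.piSplitAt j0 (fun j => Fin (k j + 1) → ℕ)).symm (a0, b)) := by
  rw [Finset.sum_comm, ← Finset.sum_product']
  refine Finset.sum_equiv (Equiv.piSplitAt j0 (fun j => Fin (k j + 1) → ℕ)) ?_ ?_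
  · intro a
    unfold gtupK restSet
    rw [Fintype.mem_piFinset, Finset.mem_product]
    constructor
    · intro h
      exact ⟨h j0, Fintype.mem_piFinset.2 fun j => h j⟩
    · rintro ⟨h1, h2⟩ j
      by_cases hj : j = j0
      · subst hj
        exact h1
      · exact Fintype.mem_piFinset.1 h2 ⟨j, hj⟩
  · intro a _
    rw [Prod.mk.eta, Equiv.symm_apply_apply]

lemma piSplitAt_symm_self {d : ℕ} (k : Fin d → ℕ) (j0 : Fin d)
    (a0 : Fin (k j0 + 1) → ℕ) (b : RestA j0 (fun j => k j)) :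
    ((Equiv.piSplitAt j0 (fun j => Fin (k j + 1) → ℕ)).symm (a0, b)) j0 = a0 := by
  have := (Equiv.piSplitAt j0 (fun j => Fin (k j + 1) → ℕ)).apply_symm_apply (a0, b)
  exact congrArg Prod.fst this

lemma piSplitAt_symm_ne {d : ℕ} (k : Fin d → ℕ) (j0 : Fin d)
    (a0 : Fin (k j0 + 1) → ℕ) (b : RestA j0 (fun j => k j)) (j : {j : Fin d // j ≠ j0}) :
    ((Equiv.piSplitAt j0 (fun j => Fin (k j + 1) → ℕ)).symm (a0, b)) j = b j := by
  have := (Equiv.piSplitAt j0 (fun j => Fin (k j + 1) → ℕ)).apply_symm_apply (a0, b)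
  exact congrFun (congrArg Prod.snd this) j

lemma prod_split {d : ℕ} (k : Fin d → ℕ) (P : ℕ → ℝ) (j0 : Fin d) (n : ℕ)
    (a0 : Fin (k j0 + 1) → ℕ) (b : RestA j0 (fun j => k j)) :
    ∏ i : (j : Fin d) → Fin (k j + 1), P (n + gsumK
      ((Equiv.piSplitAt j0 (fun j => Fin (k j + 1) → ℕ)).symm (a0, b)) i) =
      ∏ l : Fin (k j0 + 1), fW P j0 (fun j => k j) n b (a0 l) := by
  unfold fW
  rw [← Fintype.prod_prod_type', ← (Equiv.piSplitAt j0 (fun j => Fin (k j + 1))).prod_comp]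
  refine Finset.prod_congr rfl fun i _ => ?_
  rw [gsumK_split k j0, piSplitAt_symm_self]
  congr 2
  congr 1
  refine Finset.sum_congr rfl fun j _ => ?_
  rw [piSplitAt_symm_ne]
  rfl

lemma fW_nonneg {d : ℕ} {P : ℕ → ℝ} (hP0 : ∀ n, 0 ≤ P n) (j0 : Fin d)
    (r : {j : Fin d // j ≠ j0} → ℕ) (n : ℕ) (b : RestA j0 r) (t : ℕ) : 0 ≤ fW P j0 r n b t :=
  Finset.prod_nonneg fun _ _ => hP0 _

lemma fW_le_one {d : ℕ} {P : ℕ → ℝ} (hP0 : ∀ n, 0 ≤ P n) (hP1 : ∀ n, P n ≤ 1) (j0 : Fin d)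
    (r : {j : Fin d // j ≠ j0} → ℕ) (n : ℕ) (b : RestA j0 r) (t : ℕ) : fW P j0 r n b t ≤ 1 :=
  Finset.prod_le_one (fun _ _ => hP0 _) (fun _ _ => hP1 _)

lemma split_sum {d : ℕ} (k : Fin d → ℕ) (T : Fin d → Finset ℕ) (X : Finset ℕ) (P : ℕ → ℝ)
    (j0 : Fin d) (r : {j : Fin d // j ≠ j0} → ℕ) (hr : ∀ j : {j : Fin d // j ≠ j0}, k j = r j) :
    ∑ n ∈ X, ∑ a ∈ gtupK k T, ∏ i : (j : Fin d) → Fin (k j + 1), P (n + gsumK a i)
      = ∑ w ∈ X ×ˢ restSet T j0 r, (∑ t ∈ T j0, fW P j0 r w.1 w.2 t) ^ (k j0 + 1) := by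
  obtain rfl : r = fun j : {j : Fin d // j ≠ j0} => k j := (funext hr).symm
  rw [Finset.sum_product]
  refine Finset.sum_congr rfl fun n _ => ?_
  rw [sum_gtupK_split k T j0]
  refine Finset.sum_congr rfl fun b _ => ?_
  have h1 : (∑ t ∈ T j0, fW P j0 (fun j => k j) n b t) ^ (k j0 + 1) =
      ∏ _l : Fin (k j0 + 1), ∑ t ∈ T j0, fW P j0 (fun j => k j) n b t := by
    rw [Finset.prod_const, Finset.card_univ, Fintype.card_fin]
  rw [h1, Finset.prod_univ_sum]
  refine Finset.sum_congr rfl fun a0 _ => ?_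
  exact prod_split k P j0 n a0 b

open scoped Classical in
lemma coll_bound (K : ℕ) (S : Finset ℕ) (f : ℕ → ℝ) (hf0 : ∀ t, 0 ≤ f t) (hf1 : ∀ t, f t ≤ 1)
    (u v : Fin (K + 1)) (huv : u ≠ v) (s s' : ℕ) :
    ∑ a ∈ (Fintype.piFinset (fun _ : Fin (K + 1) => S)).filter (fun a => a u + s = a v + s'),
      ∏ l, f (a l) ≤ (∑ t ∈ S, f t) ^ K := by
  obtain ⟨v', hv'⟩ := Fin.exists_succAbove_eq (Ne.symm huv)
  have h1 : (∑ t ∈ S, f t) ^ K = ∏ _l : Fin K, ∑ t ∈ S, f t := by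
    rw [Finset.prod_const, Finset.card_univ, Fintype.card_fin]
  rw [h1, Finset.prod_univ_sum]
  have hinj : Set.InjOn (fun (a : Fin (K + 1) → ℕ) (l : Fin K) => a (u.succAbove l))
      ((Fintype.piFinset (fun _ : Fin (K + 1) => S)).filter
        (fun a => a u + s = a v + s') : Finset (Fin (K + 1) → ℕ)) := by
    intro a ha a' ha' h
    rw [Finset.mem_coe, Finset.mem_filter] at ha ha'
    have hcomp : ∀ l, a (u.succAbove l) = a' (u.succAbove l) := fun l => congrFun h l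
    have hv : a v = a' v := by
      rw [← hv']
      exact hcomp v'
    have hu : a u = a' u := by
      have e1 := ha.2
      have e2 := ha'.2
      omega
    funext l
    rcases Fin.eq_self_or_eq_succAbove u l with hl | ⟨l', hl⟩
    · rw [hl]; exact hu
    · rw [hl]; exact hcomp l'
  calc ∑ a ∈ (Fintype.piFinset (fun _ : Fin (K + 1) => S)).filter
          (fun a => a u + s = a v + s'), ∏ l, f (a l)
      ≤ ∑ a ∈ (Fintype.piFinset (fun _ : Fin (K + 1) => S)).filter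
          (fun a => a u + s = a v + s'), ∏ l, f (a (u.succAbove l)) := by
        apply Finset.sum_le_sum
        intro a _
        rw [Fin.prod_univ_succAbove _ u]
        exact mul_le_of_le_one_left (Finset.prod_nonneg fun _ _ => hf0 _) (hf1 _)
    _ = ∑ c ∈ ((Fintype.piFinset (fun _ : Fin (K + 1) => S)).filter
          (fun a => a u + s = a v + s')).image
          (fun (a : Fin (K + 1) → ℕ) (l : Fin K) => a (u.succAbove l)), ∏ l, f (c l) := by
        rw [Finset.sum_image hinj]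
    _ ≤ ∑ c ∈ Fintype.piFinset (fun _ : Fin K => S), ∏ l, f (c l) := by
        apply Finset.sum_le_sum_of_subset_of_nonneg
        · intro c hc
          rw [Finset.mem_image] at hc
          obtain ⟨a, ha, rfl⟩ := hc
          rw [Finset.mem_filter, Fintype.mem_piFinset] at ha
          rw [Fintype.mem_piFinset]
          exact fun l => ha.1 _
        · intro c _ _
          exact Finset.prod_nonneg fun _ _ => hf0 _

lemma card_restSet {d : ℕ} (k : Fin d → ℕ) (T : Fin d → Finset ℕ) (j0 : Fin d) :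
    (restSet T j0 (fun j => k j)).card = ∏ j ∈ univ.erase j0, (T j).card ^ (k j + 1) := by
  unfold restSet
  rw [Fintype.card_piFinset]
  have h1 : ∀ j : {j : Fin d // j ≠ j0},
      (Fintype.piFinset (fun _ : Fin (k j + 1) => T j)).card = (T j).card ^ (k j + 1) := by
    intro j
    rw [Fintype.card_piFinset]
    simp
  rw [Finset.prod_congr rfl fun j _ => h1 j]
  exact (Finset.prod_subtype (univ.erase j0) (fun j => by simp)
    (fun j => (T j).card ^ (k j + 1))).symm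

open scoped Classical in
theorem split_exists {d : ℕ} (k : Fin d → ℕ) (T : Fin d → Finset ℕ) (X : Finset ℕ) (P : ℕ → ℝ)
    (hP0 : ∀ n, 0 ≤ P n) (hP1 : ∀ n, P n ≤ 1) (j0 : Fin d) :
    ∃ (W : Type) (Ws : Finset W) (Xf : W → ℝ), (∀ w, 0 ≤ Xf w) ∧
      (∑ n ∈ X, ∑ a ∈ gtupK k T, ∏ i : (j : Fin d) → Fin (k j + 1), P (n + gsumK a i)
        = ∑ w ∈ Ws, Xf w ^ (k j0 + 1)) ∧
      (∑ n ∈ X, ∑ a ∈ gtupK (Function.update k j0 0) T,
          ∏ i : (j : Fin d) → Fin (Function.update k j0 0 j + 1), P (n + gsumK a i)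
        = ∑ w ∈ Ws, Xf w) ∧
      (Ws.card = X.card * ∏ j ∈ univ.erase j0, (T j).card ^ (k j + 1)) ∧
      (∀ i i' : (j : Fin d) → Fin (k j + 1), i j0 ≠ i' j0 →
        ∑ n ∈ X, ∑ a ∈ (gtupK k T).filter (fun a => gsumK a i = gsumK a i'),
            ∏ i : (j : Fin d) → Fin (k j + 1), P (n + gsumK a i)
          ≤ ∑ w ∈ Ws, Xf w ^ (k j0)) := by
  refine ⟨ℕ × RestA j0 (fun j => k j), X ×ˢ restSet T j0 (fun j => k j),
    fun w => ∑ t ∈ T j0, fW P j0 (fun j => k j) w.1 w.2 t, ?_, ?_, ?_, ?_, ?_⟩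
  · intro w
    exact Finset.sum_nonneg fun t _ => fW_nonneg hP0 _ _ _ _ _
  · exact split_sum k T X P j0 _ (fun _ => rfl)
  · rw [split_sum (Function.update k j0 0) T X P j0 (fun j => k j)
      (fun j => Function.update_of_ne j.2 _ _)]
    refine Finset.sum_congr rfl fun w _ => ?_
    rw [Function.update_self, zero_add, pow_one]
  · rw [Finset.card_product, card_restSet]
  · intro i i' hii
    rw [Finset.sum_product]
    apply Finset.sum_le_sum
    intro n _
    rw [Finset.sum_filter, sum_gtupK_split k T j0]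
    apply Finset.sum_le_sum
    intro b _
    refine le_trans (le_of_eq ?_) (coll_bound (k j0) (T j0) (fW P j0 (fun j => k j) n b)
      (fW_nonneg hP0 _ _ _ _) (fW_le_one hP0 hP1 _ _ _ _) (i j0) (i' j0) hii
      (∑ j : {j : Fin d // j ≠ j0}, b j (i j)) (∑ j : {j : Fin d // j ≠ j0}, b j (i' j)))
    rw [Finset.sum_filter]
    refine Finset.sum_congr rfl fun a0 _ => ?_
    have e1 : ∀ i : (j : Fin d) → Fin (k j + 1),
        gsumK ((Equiv.piSplitAt j0 (fun j => Fin (k j + 1) → ℕ)).symm (a0, b)) i =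
          a0 (i j0) + ∑ j : {j : Fin d // j ≠ j0}, b j (i j) := by
      intro i
      rw [gsumK_split k j0, piSplitAt_symm_self]
      congr 1
      refine Finset.sum_congr rfl fun j _ => ?_
      rw [piSplitAt_symm_ne]
    rw [e1 i, e1 i', prod_split]

end Pool.Agent.HLC
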