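import Pool.Agent.Lib.HLB.GridProp
import Pool.Agent.Lib.HLC.PosK
import Pool.Agent.Lib.HLC.SplitK

/-!
# The Hardy-Littlewood lower bound for grids of sums, natural thresholds
-/

set_option autoImplicit false

open Finset Filter

namespace Pool.Agent.HLC

open Pool.Agent.HL Pool.Agent.Lib.Sieve4 Pool.Agent.HLB

/-- The number of points of the grid. -/
def RK {d : ℕ} (k : Fin d → ℕ) : ℕ := ∏ j, (k j + 1)

lemma RK_pos {d : ℕ} (k : Fin d → ℕ) : 1 ≤ RK k := Finset.prod_pos fun _ _ => Nat.succ_pos _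

lemma card_index {d : ℕ} (k : Fin d → ℕ) : Fintype.card ((j : Fin d) → Fin (k j + 1)) = RK k := by
  rw [Fintype.card_pi]
  unfold RK
  exact Finset.prod_congr rfl fun j _ => Fintype.card_fin _

lemma gsumK_le {d : ℕ} {k : Fin d → ℕ} {T : Fin d → Finset ℕ} {y : ℝ}
    (hT : ∀ j, ∀ a ∈ T j, (a : ℝ) ≤ y)
    {a : (j : Fin d) → Fin (k j + 1) → ℕ} (ha : a ∈ gtupK k T) (i : (j : Fin d) → Fin (k j + 1)) :
    (gsumK a i : ℝ) ≤ d * y := by
  unfold gsumK
  push_cast
  calc ∑ j, (a j (i j) : ℝ) ≤ ∑ _j : Fin d, y := by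
        refine Finset.sum_le_sum fun j _ => hT j _ ?_
        have h1 := Fintype.mem_piFinset.mp ha j
        exact Fintype.mem_piFinset.mp h1 (i j)
    _ = d * y := by rw [Finset.sum_const, card_univ, Fintype.card_fin, nsmul_eq_mul]

/-- All grids, partial singular series. -/
theorem grid_lower_auxK (hSW : SW) {d : ℕ} (k : Fin d → ℕ) {ε : ℝ} (hε : 0 < ε) :
    ∃ η : ℝ, 0 < η ∧ ∀ᶠ x : ℕ in atTop, ∀ T : Fin d → Finset ℕ,
      (∀ j, ∀ a ∈ T j, (a : ℝ) ≤ η * x) →
      (1 - ε) * ((x / Real.log x ^ (RK k)) *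
          ∑ a ∈ gtupK k T, SZ (zz (RK k) x) (gsumK a))
        ≤ ∑ a ∈ gtupK k T, (cnt (gsumK a) x : ℝ) := by
  classical
  set r : ℕ := RK k with hr
  have hr1 : 1 ≤ r := RK_pos k
  have hrR : (1:ℝ) ≤ (r : ℝ) := by exact_mod_cast hr1
  set R : ℝ := (r : ℝ) with hR
  have hR0 : 0 < R := by linarith
  have hRpow : ∏ j, ((k j : ℝ) + 1) = R := by rw [hR, hr, RK]; push_cast; ring
  set ε1 : ℝ := min (ε / (8 * R)) (1 / 2) with hε1
  have hε1pos : 0 < ε1 := lt_min (by positivity) (by norm_num)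
  have hε1le : ε1 ≤ ε / (8 * R) := min_le_left _ _
  have hε1lt : ε1 < 1 := lt_of_le_of_lt (min_le_right _ _) (by norm_num)
  refine ⟨ε1 / (d + 1), by positivity, ?_⟩
  have hL : ∀ᶠ x : ℕ in atTop, 8 * R / ε ≤ Real.log x :=
    (Real.tendsto_log_atTop.comp tendsto_natCast_atTop_atTop).eventually_ge_atTop _
  filter_upwards [cl_lower hSW r hε1pos hε1lt hε1pos (r + 1), cl_upper r (r + 1), hL,
    eventually_ge_atTop 2] with x hx1 hx2 hx3 hx4 T hT
  have hxpos : (0:ℝ) < x := by exact_mod_cast (by omega : 0 < x)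
  have hLpos : 0 < Real.log x := lt_of_lt_of_le (by positivity) hx3
  set z := zz r x with hz
  set b := bb r x with hb
  set X : ℝ := x / Real.log x ^ r with hX
  have hXpos : 0 < X := by positivity
  set G : ℝ := ∑ a ∈ gtupK k T, SZ z (gsumK a) with hG
  have hcardI : Fintype.card ((j : Fin d) → Fin (k j + 1)) = r := card_index k
  have hb0 : 0 ≤ b := by
    rw [hb]; unfold bb
    exact inv_nonneg.mpr (mul_nonneg (DZ_pos _).le hLpos.le)
  have hpd : ((gtupK k T).card : ℝ) ≤ G := by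
    have h := posdef_gridK k z T
    rw [card_gtupK]
    push_cast
    exact h
  have hcard0 : (0:ℝ) ≤ ((gtupK k T).card : ℝ) := Nat.cast_nonneg _
  have hG0 : 0 ≤ G := le_trans hcard0 hpd
  have hpeel := grid_peelK k (Icc 1 x) T ip (fun n => b * ic z n) ip_nonneg
    (fun n => mul_nonneg hb0 (ic_nonneg _ _))
  rw [hRpow] at hpeel
  have eP : ∑ n ∈ Icc 1 x, ∑ a ∈ gtupK k T, ∏ i : (j : Fin d) → Fin (k j + 1), ip (n + gsumK a i)
      = ∑ a ∈ gtupK k T, (cnt (gsumK a) x : ℝ) := by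
    rw [Finset.sum_comm]
    refine Finset.sum_congr rfl fun a _ => ?_
    rw [cnt_eq]
  have eB : ∑ n ∈ Icc 1 x, ∑ a ∈ gtupK k T,
        ∏ i : (j : Fin d) → Fin (k j + 1), (fun n => b * ic z n) (n + gsumK a i)
      = ∑ a ∈ gtupK k T, b ^ r * ∑ n ∈ Icc 1 x,
          ∏ i : (j : Fin d) → Fin (k j + 1), ic z (n + gsumK a i) := by
    rw [Finset.sum_comm]
    refine Finset.sum_congr rfl fun a _ => ?_
    rw [Finset.mul_sum]
    refine Finset.sum_congr rfl fun n _ => ?_
    simp only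
    rw [Finset.prod_mul_distrib, Finset.prod_const, card_univ, hcardI]
  have eS : ∑ n ∈ Icc 1 x, ∑ a ∈ gtupK k T,
          ip (n + gsumK a (fun _ => 0)) *
            ∏ i ∈ univ.erase (fun _ => 0 : (j : Fin d) → Fin (k j + 1)),
            (fun n => b * ic z n) (n + gsumK a i)
      = ∑ a ∈ gtupK k T, b ^ (r - 1) * ∑ n ∈ Icc 1 x, ip (n + gsumK a (fun _ => 0)) *
          ∏ i ∈ univ.erase (fun _ => 0 : (j : Fin d) → Fin (k j + 1)), ic z (n + gsumK a i) := by
    rw [Finset.sum_comm]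
    refine Finset.sum_congr rfl fun a _ => ?_
    rw [Finset.mul_sum]
    refine Finset.sum_congr rfl fun n _ => ?_
    simp only
    rw [Finset.prod_mul_distrib, Finset.prod_const, Finset.card_erase_of_mem (mem_univ _), card_univ,
      hcardI]
    ring
  rw [eP, eB, eS] at hpeel
  set S0 : ℝ := ∑ a ∈ gtupK k T, (cnt (gsumK a) x : ℝ) with hS0
  set TT0 : ℝ := ∑ a ∈ gtupK k T, b ^ r * ∑ n ∈ Icc 1 x,
    ∏ i : (j : Fin d) → Fin (k j + 1), ic z (n + gsumK a i) with hTT
  set Sd : ℝ := ∑ a ∈ gtupK k T, b ^ (r - 1) * ∑ n ∈ Icc 1 x, ip (n + gsumK a (fun _ => 0)) *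
          ∏ i ∈ univ.erase (fun _ => 0 : (j : Fin d) → Fin (k j + 1)), ic z (n + gsumK a i) with hSd
  have hlow : (1 - ε1 - ε1) * (X * G) - x / Real.log x ^ (r + 1) * (gtupK k T).card ≤ Sd := by
    have h1 : ∀ a ∈ gtupK k T, (1 - ε1 - ε1) * X * SZ z (gsumK a) - x / Real.log x ^ (r + 1)
        ≤ b ^ (r - 1) * ∑ n ∈ Icc 1 x, ip (n + gsumK a (fun _ => 0)) *
          ∏ i ∈ univ.erase (fun _ => 0 : (j : Fin d) → Fin (k j + 1)), ic z (n + gsumK a i) := by
      intro a ha
      refine hx1 ((j : Fin d) → Fin (k j + 1)) (gsumK a) (fun _ => 0) hcardI ?_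
      refine (gsumK_le (y := ε1 / (d + 1) * x) hT ha _).trans ?_
      have e : (d : ℝ) * (ε1 / (d + 1) * x) = (d / (d + 1)) * (ε1 * x) := by ring
      rw [e]
      have h3 : (d : ℝ) / (d + 1) ≤ 1 := by
        rw [div_le_one (by positivity)]; linarith
      exact mul_le_of_le_one_left (by positivity) h3
    have h2 := Finset.sum_le_sum h1
    rw [Finset.sum_sub_distrib, ← Finset.mul_sum, Finset.sum_const, nsmul_eq_mul] at h2
    refine le_trans (le_of_eq ?_) h2
    rw [hG]; ring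
  have hup : TT0 ≤ X * G + x / Real.log x ^ (r + 1) * (gtupK k T).card := by
    have h1 : ∀ a ∈ gtupK k T, b ^ r * ∑ n ∈ Icc 1 x,
          ∏ i : (j : Fin d) → Fin (k j + 1), ic z (n + gsumK a i)
        ≤ X * SZ z (gsumK a) + x / Real.log x ^ (r + 1) := by
      intro a _
      exact hx2 ((j : Fin d) → Fin (k j + 1)) (gsumK a) hcardI
    have h2 : TT0 ≤ ∑ a ∈ gtupK k T, (X * SZ z (gsumK a) + x / Real.log x ^ (r + 1)) :=
      Finset.sum_le_sum h1
    refine h2.trans (le_of_eq ?_)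
    rw [Finset.sum_add_distrib, ← Finset.mul_sum, Finset.sum_const, nsmul_eq_mul, hG]
    ring
  have herr : x / Real.log x ^ (r + 1) * ((gtupK k T).card : ℝ) ≤ (1 / Real.log x) * (X * G) := by
    have e : (x:ℝ) / Real.log x ^ (r + 1) = (1 / Real.log x) * X := by
      rw [hX, pow_succ]
      field_simp
    rw [e, mul_assoc]
    gcongr
  have hlogR : 2 * R * (1 / Real.log x) ≤ ε / 4 := by
    rw [mul_one_div, div_le_iff₀ hLpos]
    have := (div_le_iff₀ hε).mp hx3
    nlinarith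
  have hRε : R * (2 * ε1) ≤ ε / 4 := by
    have := mul_le_mul_of_nonneg_left hε1le (by positivity : 0 ≤ 2 * R)
    calc R * (2 * ε1) = 2 * R * ε1 := by ring
      _ ≤ 2 * R * (ε / (8 * R)) := this
      _ = ε / 4 := by field_simp; ring
  have hXG : 0 ≤ X * G := by positivity
  have h3 : R * ((1 - ε1 - ε1) * (X * G) - (1 / Real.log x) * (X * G)) ≤ R * Sd :=
    mul_le_mul_of_nonneg_left (by linarith) hR0.le
  have h4 : (R - 1) * TT0 ≤ (R - 1) * (X * G + (1 / Real.log x) * (X * G)) :=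
    mul_le_mul_of_nonneg_left (by linarith) (by linarith)
  have h5 : (1 - ε) * (X * G) ≤ R * ((1 - ε1 - ε1) * (X * G) - (1 / Real.log x) * (X * G))
      - (R - 1) * (X * G + (1 / Real.log x) * (X * G)) := by
    have h6 : R * ((1 - ε1 - ε1) * (X * G) - (1 / Real.log x) * (X * G))
      - (R - 1) * (X * G + (1 / Real.log x) * (X * G))
      = (1 - R * (2 * ε1) - (2 * R - 1) * (1 / Real.log x)) * (X * G) := by ring
    rw [h6]
    refine mul_le_mul_of_nonneg_right ?_ hXG
    have h7 : (2 * R - 1) * (1 / Real.log x) ≤ 2 * R * (1 / Real.log x) := by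
      have : 0 ≤ 1 / Real.log x := by positivity
      nlinarith
    linarith
  linarith

/-- Chebyshev's sum inequality in the form needed here. -/
lemma cheb_pow {W : Type} (Ws : Finset W) (f : W → ℝ) (hf : ∀ w, 0 ≤ f w) (m : ℕ) :
    (∑ w ∈ Ws, f w) * (∑ w ∈ Ws, f w ^ m) ≤ (Ws.card : ℝ) * ∑ w ∈ Ws, f w ^ (m + 1) := by
  have h : MonovaryOn f (fun w => f w ^ m) Ws := by
    intro a _ b _ hab
    by_contra hlt
    push Not at hlt
    exact absurd (pow_le_pow_left₀ (hf b) hlt.le m) (not_le.mpr hab)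
  have h1 := h.sum_mul_sum_le_card_mul_sum
  refine h1.trans (le_of_eq ?_)
  congr 1
  exact Finset.sum_congr rfl fun w _ => by ring

lemma sum_biUnion_le' {α β : Type} [DecidableEq β] (s : Finset α) (t : α → Finset β) (f : β → ℝ)
    (hf : ∀ b, 0 ≤ f b) : ∑ b ∈ s.biUnion t, f b ≤ ∑ a ∈ s, ∑ b ∈ t a, f b := by
  classical
  induction s using Finset.induction_on with
  | empty => simp
  | insert a s ha ih =>
    rw [Finset.biUnion_insert, Finset.sum_insert ha]
    have h1 : ∑ b ∈ t a ∪ s.biUnion t, f b ≤ ∑ b ∈ t a, f b + ∑ b ∈ s.biUnion t, f b := by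
      rw [← Finset.sum_union_inter]
      have : 0 ≤ ∑ b ∈ t a ∩ s.biUnion t, f b := Finset.sum_nonneg fun b _ => hf b
      linarith
    linarith

open scoped Classical in
/-- Degenerate grids contribute little. -/
theorem degenerateK (hSW : SW) {d : ℕ} (k : Fin d → ℕ) :
    ∃ η : ℝ, 0 < η ∧ ∀ C : ℝ, 0 < C → ∀ᶠ x : ℕ in atTop, ∀ T : Fin d → Finset ℕ,
      (∀ j, ∀ a ∈ T j, (a : ℝ) ≤ η * x) →
      (∀ j, 1 ≤ k j → C * Real.log x ^ (RK (Function.update k j 0)) ≤ (T j).card) →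
      ∑ a ∈ (gtupK k T).filter (fun a => ¬ Function.Injective (gsumK a)), (cnt (gsumK a) x : ℝ)
        ≤ 2 * (RK k : ℝ) ^ 2 / C * ∑ a ∈ gtupK k T, (cnt (gsumK a) x : ℝ) := by
  have hch : ∀ j0 : Fin d, ∃ η : ℝ, 0 < η ∧ ∀ᶠ x : ℕ in atTop, ∀ T : Fin d → Finset ℕ,
      (∀ j, ∀ a ∈ T j, (a : ℝ) ≤ η * x) →
      (1 - 1 / 2) * ((x / Real.log x ^ (RK (Function.update k j0 0))) *
          ∑ a ∈ gtupK (Function.update k j0 0) T, SZ (zz (RK (Function.update k j0 0)) x) (gsumK a))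
        ≤ ∑ a ∈ gtupK (Function.update k j0 0) T, (cnt (gsumK a) x : ℝ) := fun j0 =>
    grid_lower_auxK hSW (Function.update k j0 0) (by norm_num)
  choose ηf hηf hmain using hch
  obtain ⟨η, hη, hηle⟩ : ∃ η : ℝ, 0 < η ∧ ∀ j, η ≤ ηf j := by
    rcases isEmpty_or_nonempty (Fin d) with he | hne
    · exact ⟨1, one_pos, fun j => (he.false j).elim⟩
    · obtain ⟨j1, hj1⟩ := Finite.exists_min ηf
      exact ⟨ηf j1, hηf j1, hj1⟩
  refine ⟨η, hη, fun C hC => ?_⟩
  have hall : ∀ᶠ x : ℕ in atTop, ∀ j0 : Fin d, ∀ T : Fin d → Finset ℕ,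
      (∀ j, ∀ a ∈ T j, (a : ℝ) ≤ ηf j0 * x) →
      (1 - 1 / 2) * ((x / Real.log x ^ (RK (Function.update k j0 0))) *
          ∑ a ∈ gtupK (Function.update k j0 0) T, SZ (zz (RK (Function.update k j0 0)) x) (gsumK a))
        ≤ ∑ a ∈ gtupK (Function.update k j0 0) T, (cnt (gsumK a) x : ℝ) :=
    Filter.eventually_all.mpr hmain
  filter_upwards [hall, eventually_ge_atTop 3] with x hx1 hx3 T hT hTcard
  have hx3R : (3:ℝ) ≤ x := by exact_mod_cast hx3
  have hxpos : (0:ℝ) < x := by linarith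
  have hlog : 0 < Real.log x := Real.log_pos (by linarith)
  set Φ : ℝ := ∑ a ∈ gtupK k T, (cnt (gsumK a) x : ℝ) with hΦ
  have hΦ0 : 0 ≤ Φ := Finset.sum_nonneg fun _ _ => Nat.cast_nonneg _
  have ePk : ∀ k' : Fin d → ℕ, ∀ A : Finset ((j : Fin d) → Fin (k' j + 1) → ℕ),
      ∑ n ∈ Icc 1 x, ∑ a ∈ A, ∏ i : (j : Fin d) → Fin (k' j + 1), ip (n + gsumK a i)
      = ∑ a ∈ A, (cnt (gsumK a) x : ℝ) := by
    intro k' A
    rw [Finset.sum_comm]
    refine Finset.sum_congr rfl fun a _ => ?_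
    rw [cnt_eq]
  have hip1 : ∀ n, ip n ≤ 1 := ip_le_one
  -- a pair of coinciding points
  have hpair : ∀ i i' : (j : Fin d) → Fin (k j + 1), i ≠ i' →
      ∑ a ∈ (gtupK k T).filter (fun a => gsumK a i = gsumK a i'), (cnt (gsumK a) x : ℝ)
        ≤ 2 / C * Φ := by
    intro i i' hii
    obtain ⟨j0, hj0⟩ : ∃ j0, i j0 ≠ i' j0 := by
      by_contra hcon
      push Not at hcon
      exact hii (funext hcon)
    have hk1 : 1 ≤ k j0 := by
      by_contra hk
      have hk0 : k j0 = 0 := by omega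
      apply hj0
      have h1 := (i j0).isLt
      have h2 := (i' j0).isLt
      exact Fin.ext (by omega)
    by_cases hne : ∀ j, (T j).Nonempty
    swap
    · push Not at hne
      obtain ⟨j, hj⟩ := hne
      have hemp : gtupK k T = ∅ := by
        rw [← Finset.card_eq_zero, card_gtupK]
        refine Finset.prod_eq_zero (mem_univ j) ?_
        rw [hj, Finset.card_empty]
        exact zero_pow (by omega)
      rw [hemp, Finset.filter_empty, Finset.sum_empty]
      positivity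
    obtain ⟨W, Ws, Xf, hXf, h1, h2, h3, h4⟩ := split_exists k T (Icc 1 x) ip ip_nonneg hip1 j0
    have h4' := h4 i i' hj0
    rw [ePk] at h1 h2 h4'
    rw [Nat.card_Icc, Nat.add_sub_cancel] at h3
    have hch := cheb_pow Ws Xf hXf (k j0)
    rw [← h1, ← h2] at hch
    -- the lower bound for the reduced grid
    have hlow := hx1 j0 T (fun j a ha => (hT j a ha).trans
      (mul_le_mul_of_nonneg_right (hηle j0) hxpos.le))
    set k1 := Function.update k j0 0 with hk1def
    set Φ1 : ℝ := ∑ a ∈ gtupK k1 T, (cnt (gsumK a) x : ℝ) with hΦ1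
    set Y : ℝ := ∏ j ∈ univ.erase j0, ((T j).card : ℝ) ^ (k j + 1) with hY
    have hYpos : 0 < Y := by
      refine Finset.prod_pos fun j _ => ?_
      have h5 : (0:ℝ) < ((T j).card : ℝ) := by exact_mod_cast (hne j).card_pos
      exact pow_pos h5 _
    have hpd := posdef_gridK k1 (zz (RK k1) x) T
    have hprod : ∏ j, ((T j).card : ℝ) ^ (k1 j + 1) = (T j0).card * Y := by
      rw [← Finset.mul_prod_erase univ _ (mem_univ j0), hk1def, Function.update_self, zero_add, pow_one]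
      congr 1
      refine Finset.prod_congr rfl fun j hj => ?_
      rw [Function.update_of_ne (Finset.ne_of_mem_erase hj)]
    rw [hprod] at hpd
    have hcardW : (Ws.card : ℝ) = x * Y := by rw [h3]; push_cast; rfl
    clear_value Y
    have hLp : 0 < Real.log x ^ (RK k1) := by positivity
    have hT0 := hTcard j0 hk1
    have hlow2 : (1 / 2) * (C * (x * Y)) ≤ Φ1 := by
      have h5 : (1 - 1 / 2) * ((x / Real.log x ^ (RK k1)) * ((T j0).card * Y)) ≤ Φ1 := by
        refine le_trans ?_ hlow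
        gcongr
      refine le_trans ?_ h5
      have h6 : C * (x * Y) ≤ (x / Real.log x ^ (RK k1)) * ((T j0).card * Y) := by
        calc C * (x * Y) = (x / Real.log x ^ (RK k1)) * ((C * Real.log x ^ (RK k1)) * Y) := by
              field_simp
          _ ≤ (x / Real.log x ^ (RK k1)) * ((T j0).card * Y) := by gcongr
      linarith
    rw [hcardW] at hch
    have hXYpos : 0 < x * Y := by positivity
    have hΦ1pos : 0 < Φ1 := lt_of_lt_of_le (by positivity) hlow2
    set Q : ℝ := ∑ w ∈ Ws, Xf w ^ (k j0) with hQ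
    have hQ0 : 0 ≤ Q := Finset.sum_nonneg fun w _ => pow_nonneg (hXf w) _
    have h7 : (1 / 2) * (C * (x * Y)) * Q ≤ (x * Y) * Φ :=
      (mul_le_mul_of_nonneg_right hlow2 hQ0).trans hch
    have h8 : (C / 2) * Q ≤ Φ := by
      have h9 : (x * Y) * ((C / 2) * Q) ≤ (x * Y) * Φ := by
        refine le_trans (le_of_eq (by ring)) h7
      exact le_of_mul_le_mul_left h9 hXYpos
    refine h4'.trans ?_
    rw [div_mul_eq_mul_div, le_div_iff₀ hC]
    linarith
  -- union bound over the pairs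
  have hunion : ∑ a ∈ (gtupK k T).filter (fun a => ¬ Function.Injective (gsumK a)),
        (cnt (gsumK a) x : ℝ)
      ≤ ∑ p ∈ (univ : Finset (((j : Fin d) → Fin (k j + 1)) × ((j : Fin d) → Fin (k j + 1)))).filter
          (fun p => p.1 ≠ p.2),
          ∑ a ∈ (gtupK k T).filter (fun a => gsumK a p.1 = gsumK a p.2), (cnt (gsumK a) x : ℝ) := by
    have h1 : (gtupK k T).filter (fun a => ¬ Function.Injective (gsumK a))
        ⊆ ((univ : Finset (((j : Fin d) → Fin (k j + 1)) × ((j : Fin d) → Fin (k j + 1)))).filter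
          (fun p => p.1 ≠ p.2)).biUnion
            (fun p => (gtupK k T).filter (fun a => gsumK a p.1 = gsumK a p.2)) := by
      intro a ha
      rw [mem_filter] at ha
      obtain ⟨ha1, ha2⟩ := ha
      unfold Function.Injective at ha2
      push Not at ha2
      obtain ⟨i, i', h, hne⟩ := ha2
      rw [mem_biUnion]
      exact ⟨(i, i'), mem_filter.mpr ⟨mem_univ _, hne⟩, mem_filter.mpr ⟨ha1, h⟩⟩
    refine (Finset.sum_le_sum_of_subset_of_nonneg h1 fun _ _ _ => Nat.cast_nonneg _).trans ?_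
    exact sum_biUnion_le' _ _ _ fun _ => Nat.cast_nonneg _
  refine hunion.trans ?_
  refine (Finset.sum_le_sum fun p hp => hpair p.1 p.2 (mem_filter.mp hp).2).trans ?_
  rw [Finset.sum_const, nsmul_eq_mul]
  have hc : ((((univ : Finset (((j : Fin d) → Fin (k j + 1)) ×
      ((j : Fin d) → Fin (k j + 1)))).filter (fun p => p.1 ≠ p.2)).card : ℕ) : ℝ) ≤ (RK k : ℝ) ^ 2 := by
    have h1 := Finset.card_filter_le (univ : Finset (((j : Fin d) → Fin (k j + 1)) ×
      ((j : Fin d) → Fin (k j + 1)))) (fun p => p.1 ≠ p.2)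
    rw [card_univ, Fintype.card_prod, card_index] at h1
    have h2 : RK k * RK k = (RK k) ^ 2 := by ring
    rw [h2] at h1
    exact_mod_cast h1
  calc _ ≤ (RK k : ℝ) ^ 2 * (2 / C * Φ) := by gcongr
    _ = 2 * (RK k : ℝ) ^ 2 / C * Φ := by ring

open scoped Classical in
/-- Nondegenerate grids, full singular series. -/
theorem grid_lowerK (hSW : SW) {d : ℕ} (k : Fin d → ℕ) {ε : ℝ} (hε : 0 < ε) :
    ∃ C η : ℝ, 0 < C ∧ 0 < η ∧ ∀ᶠ x : ℕ in atTop, ∀ T : Fin d → Finset ℕ,
      (∀ j, ∀ a ∈ T j, (a : ℝ) ≤ η * x) →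
      (∀ j, 1 ≤ k j → C * Real.log x ^ (RK (Function.update k j 0)) ≤ (T j).card) →
      (1 - ε) * ((x / Real.log x ^ (RK k)) *
          ∑ a ∈ (gtupK k T).filter (fun a => Function.Injective (gsumK a)), SI (gsumK a))
        ≤ ∑ a ∈ (gtupK k T).filter (fun a => Function.Injective (gsumK a)), (cnt (gsumK a) x : ℝ) ∧
      (1 - ε) * ((x / Real.log x ^ (RK k)) * (gtupK k T).card)
        ≤ ∑ a ∈ (gtupK k T).filter (fun a => Function.Injective (gsumK a)), (cnt (gsumK a) x : ℝ) := by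
  set r : ℕ := RK k with hr
  have hr1 : 1 ≤ r := RK_pos k
  have hrR : (1:ℝ) ≤ (r : ℝ) := by exact_mod_cast hr1
  obtain ⟨η, hη, hmain⟩ := grid_lower_auxK hSW k (ε := ε / 8) (by positivity)
  obtain ⟨η', hη', hdeg⟩ := degenerateK hSW k
  refine ⟨16 * (r : ℝ) ^ 2 / ε, min (min η η') (1 / (d + 1)), by positivity,
    lt_min (lt_min hη hη') (by positivity), ?_⟩
  filter_upwards [hmain, hdeg (16 * (r : ℝ) ^ 2 / ε) (by positivity),
    sing_tail r r hr1 (ε := ε / 4) (by positivity), eventually_ge_atTop 3]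
    with x hx1 hx2 hx3 hx4 T hT hTcard
  have hx3R : (3:ℝ) ≤ x := by exact_mod_cast hx4
  have hxpos : (0:ℝ) < x := by linarith
  have hLpos : 0 < Real.log x := Real.log_pos (by linarith)
  have hgx : ∀ a ∈ gtupK k T, ∀ i, gsumK a i ≤ x := by
    intro a ha i
    have h := gsumK_le (y := 1 / (d + 1) * x) (fun j a ha =>
      (hT j a ha).trans (mul_le_mul_of_nonneg_right (min_le_right _ _) hxpos.le)) ha i
    have e : (d:ℝ) * (1 / (d + 1) * x) ≤ x := by
      have h3 : (d : ℝ) / (d + 1) ≤ 1 := by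
        rw [div_le_one (by positivity)]; linarith
      calc (d:ℝ) * (1 / (d + 1) * x) = ((d : ℝ) / (d + 1)) * x := by ring
        _ ≤ 1 * x := by gcongr
        _ = x := one_mul _
    have := h.trans e
    exact_mod_cast this
  have h1 := hx1 T (fun j a ha =>
    (hT j a ha).trans (mul_le_mul_of_nonneg_right ((min_le_left _ _).trans (min_le_left _ _)) hxpos.le))
  have h2 := hx2 T (fun j a ha =>
    (hT j a ha).trans (mul_le_mul_of_nonneg_right ((min_le_left _ _).trans (min_le_right _ _)) hxpos.le))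
    hTcard
  set z := zz r x with hz
  set X : ℝ := x / Real.log x ^ r with hX
  have hXpos : 0 < X := by positivity
  set G : ℝ := ∑ a ∈ gtupK k T, SZ z (gsumK a) with hG
  set I := (gtupK k T).filter (fun a => Function.Injective (gsumK a)) with hI
  set Φ : ℝ := ∑ a ∈ gtupK k T, (cnt (gsumK a) x : ℝ) with hΦ
  have hpd : ((gtupK k T).card : ℝ) ≤ G := by
    have h := posdef_gridK k z T
    rw [card_gtupK]
    push_cast
    exact h
  have hcard0 : (0:ℝ) ≤ ((gtupK k T).card : ℝ) := Nat.cast_nonneg _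
  have hG0 : 0 ≤ G := le_trans hcard0 hpd
  have hXG : 0 ≤ X * G := by positivity
  have hsplit : Φ
      = ∑ a ∈ I, (cnt (gsumK a) x : ℝ)
        + ∑ a ∈ (gtupK k T).filter (fun a => ¬ Function.Injective (gsumK a)),
            (cnt (gsumK a) x : ℝ) := by
    rw [hI, hΦ, Finset.sum_filter_add_sum_filter_not]
  have hconst : 2 * (r : ℝ) ^ 2 / (16 * (r : ℝ) ^ 2 / ε) = ε / 8 := by
    field_simp; ring
  rw [hconst] at h2
  have hI0 : 0 ≤ ∑ a ∈ I, (cnt (gsumK a) x : ℝ) := Finset.sum_nonneg fun _ _ => Nat.cast_nonneg _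
  have hinjG : ∑ a ∈ I, SI (gsumK a) ≤ (1 + ε / 4) * G := by
    have h3 : ∑ a ∈ I, SI (gsumK a) ≤ ∑ a ∈ I, (1 + ε / 4) * SZ z (gsumK a) := by
      refine Finset.sum_le_sum fun a ha => ?_
      rw [hI, mem_filter] at ha
      exact hx3 ((j : Fin d) → Fin (k j + 1)) (gsumK a) (card_index k) ha.2 (hgx a ha.1)
    refine h3.trans ?_
    rw [← Finset.mul_sum]
    refine mul_le_mul_of_nonneg_left ?_ (by positivity)
    exact Finset.sum_le_sum_of_subset_of_nonneg (Finset.filter_subset _ _) fun a _ _ => SZ_nonneg _ _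
  rcases le_or_gt (1 - ε) 0 with hneg | hpos'
  · constructor
    · refine le_trans (mul_nonpos_of_nonpos_of_nonneg hneg (mul_nonneg hXpos.le ?_)) hI0
      refine Finset.sum_nonneg fun a ha => SI_nonneg _ ?_
      rw [hI, mem_filter] at ha
      exact ha.2
    · exact le_trans (mul_nonpos_of_nonpos_of_nonneg hneg (by positivity)) hI0
  · have hmainI : (1 - ε / 2) * (X * G) ≤ ∑ a ∈ I, (cnt (gsumK a) x : ℝ) := by
      have h5 : (1 - ε / 8) * Φ ≤ ∑ a ∈ I, (cnt (gsumK a) x : ℝ) := by linarith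
      have h6 : (1 - ε / 8) * ((1 - ε / 8) * (X * G)) ≤ (1 - ε / 8) * Φ :=
        mul_le_mul_of_nonneg_left h1 (by linarith)
      have h7 : (1 - ε / 2) * (X * G) ≤ (1 - ε / 8) * ((1 - ε / 8) * (X * G)) := by
        have : (1 - ε / 2) ≤ (1 - ε / 8) * (1 - ε / 8) := by nlinarith
        calc (1 - ε / 2) * (X * G) ≤ ((1 - ε / 8) * (1 - ε / 8)) * (X * G) :=
              mul_le_mul_of_nonneg_right this hXG
          _ = _ := by ring
      linarith
    constructor
    · calc (1 - ε) * (X * ∑ a ∈ I, SI (gsumK a))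
          ≤ (1 - ε) * (X * ((1 + ε / 4) * G)) := by gcongr
        _ = ((1 - ε) * (1 + ε / 4)) * (X * G) := by ring
        _ ≤ (1 - ε / 2) * (X * G) := by
            refine mul_le_mul_of_nonneg_right ?_ (by positivity)
            nlinarith
        _ ≤ _ := hmainI
    · calc (1 - ε) * (X * ((gtupK k T).card : ℝ)) ≤ (1 - ε) * (X * G) := by gcongr
        _ ≤ (1 - ε / 2) * (X * G) := by
            refine mul_le_mul_of_nonneg_right (by linarith) (by positivity)
        _ ≤ _ := hmainI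

open scoped Classical in
/-- Positive proportion for grids. -/
theorem grid_proportionK (hSW : SW) {d : ℕ} (k : Fin d → ℕ) {ρ : ℝ} (hρ0 : 0 < ρ) (hρ : ρ < 1) :
    ∃ C δ η : ℝ, 0 < C ∧ 0 < δ ∧ 0 < η ∧ ∀ᶠ x : ℕ in atTop, ∀ T : Fin d → Finset ℕ,
      (∀ j, ∀ a ∈ T j, (a : ℝ) ≤ η * x) →
      (∀ j, 1 ≤ k j → C * Real.log x ^ (RK (Function.update k j 0)) ≤ (T j).card) →
      (∀ j, (T j).Nonempty) →
      ∃ G ⊆ (gtupK k T).filter (fun a => Function.Injective (gsumK a)),
        (∀ a ∈ G, (∀ p : ℕ, p.Prime → nuI (gsumK a) p < p) ∧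
          ρ * SI (gsumK a) * (x / Real.log x ^ (RK k)) ≤ cnt (gsumK a) x) ∧
        δ * ∑ a ∈ (gtupK k T).filter (fun a => Function.Injective (gsumK a)), SI (gsumK a)
          ≤ ∑ a ∈ G, SI (gsumK a) ∧
        δ * (gtupK k T).card ≤ ∑ a ∈ G, SI (gsumK a) := by
  set r : ℕ := RK k with hr
  have hr1 : 1 ≤ r := RK_pos k
  obtain ⟨K, hK, hKup⟩ := tuple_upperI r hr1
  have hρ' : 0 < 1 - ρ := by linarith
  obtain ⟨C, η, hC, hη, hmain⟩ := grid_lowerK hSW k (ε := (1 - ρ) / 4) (by linarith)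
  refine ⟨C, (1 - ρ) / (4 * K) / max 1 (4 * (K + ρ)), η, hC, by positivity, hη, ?_⟩
  filter_upwards [hmain, (tendsto_x_div_log_pow r).eventually_ge_atTop (8 * r / (1 - ρ)),
    (tendsto_x_div_log_pow r).eventually_ge_atTop (4 * r), eventually_ge_atTop 3]
    with x hx1 hx2 hx2' hx3 T hT hTcard hTne
  have hx3R : (3:ℝ) ≤ x := by exact_mod_cast hx3
  have hlog : 0 < Real.log x := Real.log_pos (by linarith)
  have hxpos : (0:ℝ) < x := by linarith
  have hcard : 0 < ((gtupK k T).card : ℝ) := by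
    have : 0 < (gtupK k T).card := by
      rw [card_gtupK]
      exact Finset.prod_pos fun j _ => pow_pos (hTne j).card_pos _
    exact_mod_cast this
  obtain ⟨h1, h2⟩ := hx1 T hT hTcard
  obtain ⟨G, hG, hGa, hG1, hG2⟩ := prop_generic
    ((gtupK k T).filter (fun a => Function.Injective (gsumK a)))
    (fun a => SI (gsumK a)) (fun a => (cnt (gsumK a) x : ℝ))
    (fun a => ∀ p : ℕ, p.Prime → nuI (gsumK a) p < p) (K := K) (ρ := ρ)
    (X := x / Real.log x ^ r) (N := ((gtupK k T).card : ℝ)) (r := (r : ℝ)) hK hρ0 hρ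
    (by positivity) hcard (by positivity)
    (fun a ha => SI_nonneg _ (mem_filter.mp ha).2)
    (fun a ha hadm => hKup _ (gsumK a) (card_index k) (mem_filter.mp ha).2 hadm x (by omega))
    (fun a ha hadm => by
      push Not at hadm
      obtain ⟨p, hp, hnp⟩ := hadm
      have h8 := count_inadm (gsumK a) hp hnp x
      rw [card_index] at h8
      exact_mod_cast h8)
    h1 h2 (by exact_mod_cast Finset.card_filter_le _ _) hx2 hx2'
  refine ⟨G, hG, hGa, ?_, ?_⟩
  · refine le_trans ?_ hG1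
    refine mul_le_mul_of_nonneg_right ?_ (Finset.sum_nonneg fun a ha => SI_nonneg _ (mem_filter.mp ha).2)
    exact div_le_self (by positivity) (le_max_left _ _)
  · refine le_trans ?_ hG1
    rw [div_mul_eq_mul_div, div_le_iff₀ (by positivity)]
    have hS0 : 0 ≤ ∑ a ∈ (gtupK k T).filter (fun a => Function.Injective (gsumK a)), SI (gsumK a) :=
      Finset.sum_nonneg fun a ha => SI_nonneg _ (mem_filter.mp ha).2
    calc (1 - ρ) / (4 * K) * ((gtupK k T).card : ℝ)
        ≤ (1 - ρ) / (4 * K) * (4 * (K + ρ) *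
          ∑ a ∈ (gtupK k T).filter (fun a => Function.Injective (gsumK a)), SI (gsumK a)) := by gcongr
      _ ≤ (1 - ρ) / (4 * K) * (max 1 (4 * (K + ρ)) *
          ∑ a ∈ (gtupK k T).filter (fun a => Function.Injective (gsumK a)), SI (gsumK a)) := by
          gcongr
          exact le_max_right _ _
      _ = _ := by ring

end Pool.Agent.HLC
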